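import Pool.Agent.Helper29.CPB.Graded
import Pool.Agent.Helper29.CPB.Idem
import Pool.Agent.Helper64.CPB.Converse
import Pool.Agent.Helper76.CPB.Nil

/-!
# The converse of the local form: `B(X)` implies `B(X × X)`, and `B(Z)` implies the sign conjecture
for the generic complete intersections of odd dimension in `Z`
-/

namespace Pool.Agent.Helper29.CPB

open TensorProduct Polynomial

universe u v

variable {F : Type u} [Field F] [CharZero F]

/-- An endomorphism with rational traces, injective on a stable subspace, has on it a left inverse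
which is a rational polynomial in it. -/
lemma exists_left_inv {V : Type v} [AddCommGroup V] [Module F V] [FiniteDimensional F V]
    (y : Module.End F V)
    (ht : ∀ n, 1 ≤ n → ∃ q : ℚ, LinearMap.trace F V (y ^ n) = (q : F))
    (W : V → Prop) (hW : ∀ (q : F[X]) (x), W x → W (aeval y q x))
    (hinj : ∀ x, W x → y x = 0 → x = 0) :
    ∃ e : ℚ[X], ∀ x, W x → aeval y (e.map (algebraMap ℚ F)) (y x) = x := by
  obtain ⟨p, hp⟩ := rational_charpoly' y ht
  have hp0 : p ≠ 0 := by
    rintro rfl
    rw [Polynomial.map_zero] at hp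
    exact y.charpoly_monic.ne_zero hp.symm
  obtain ⟨ψ, hψ, hψ0⟩ := Polynomial.exists_eq_pow_rootMultiplicity_mul_and_not_dvd p hp0 0
  rw [C_0, sub_zero] at hψ hψ0
  set m := p.rootMultiplicity 0 with hm
  have hco : IsCoprime (X : ℚ[X]) ψ :=
    (Polynomial.prime_X.irreducible.coprime_iff_not_dvd).mpr hψ0
  obtain ⟨a, b, hab⟩ := hco
  have hchar : aeval y (p.map (algebraMap ℚ F)) = 0 := by
    rw [hp]; exact LinearMap.aeval_self_charpoly y
  set φ : ℚ[X] → Module.End F V := fun q => aeval y (q.map (algebraMap ℚ F)) with hφ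
  have hmul : ∀ q r, φ (q * r) = φ q * φ r := fun q r => by simp [hφ, Polynomial.map_mul]
  have hadd : ∀ q r, φ (q + r) = φ q + φ r := fun q r => by simp [hφ, Polynomial.map_add]
  have hX : φ X = y := by simp [hφ]
  have h1 : φ 1 = 1 := by simp [hφ]
  have hpow : ∀ k : ℕ, φ (X ^ k) = y ^ k := by intro k; simp [hφ]
  have hWy : ∀ x, W x → W (y x) := by
    intro x hx
    have := hW Polynomial.X x hx
    rwa [aeval_X] at this
  have hinjp : ∀ (k : ℕ) (x), W x → (y ^ k) x = 0 → x = 0 := by
    intro k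
    induction k with
    | zero => intro x _ h; simpa using h
    | succ k ih =>
      intro x hx h
      rw [pow_succ, Module.End.mul_apply] at h
      exact hinj x hx (ih _ (hWy x hx) h)
  refine ⟨a, fun x hx => ?_⟩
  have e1 : φ (a * X + b * ψ) x = x := by rw [hab, h1]; rfl
  rw [hadd, LinearMap.add_apply, hmul, hX, Module.End.mul_apply] at e1
  have e2 : φ (b * ψ) x = 0 := by
    apply hinjp m _ (hW _ x hx)
    show (y ^ m) (φ (b * ψ) x) = 0
    rw [← hpow, ← Module.End.mul_apply, ← hmul,
      show X ^ m * (b * ψ) = b * p by linear_combination (-b) * hψ, hmul, Module.End.mul_apply]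
    have : φ p = 0 := hchar
    rw [this]; simp
  rw [e2, add_zero] at e1
  exact e1

namespace Variety

variable (X : Variety.{u, v} F)

/-- all traces of operators of degree 0 concentrated on one degree are rational -/
lemma trace_rat_of_conc {u : Module.End F X.H} (hu : u ∈ X.corr 0) (i : ℤ)
    (hc : u * X.π i = u) : ∃ q : ℚ, LinearMap.trace F X.H u = (q : F) := by
  obtain ⟨q, hq⟩ := X.corr_rat u hu
  have h1 : u * X.sgn = ((-1 : F) ^ i.natAbs) • u := by
    apply X.ext_homog
    intro k x hx
    rw [Module.End.mul_apply, X.sgn_apply hx, map_smul, LinearMap.smul_apply]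
    by_cases hk : k = i
    · rw [hk]
    · have h0 : u x = 0 := by
        rw [← hc, Module.End.mul_apply, X.π_apply_ne (Ne.symm hk) hx, map_zero]
      rw [h0, smul_zero, smul_zero]
  have h2 : LinearMap.trace F X.H (u * X.sgn) = q := hq
  rw [h1, map_smul, smul_eq_mul] at h2
  refine ⟨(-1) ^ i.natAbs * q, ?_⟩
  have h3 : ((-1 : F) ^ i.natAbs) * ((-1 : F) ^ i.natAbs) = 1 := by
    rw [← mul_pow, neg_one_mul, neg_neg, one_pow]
  push_cast
  rw [← h2, ← mul_assoc, h3, one_mul]

/-- polynomials in an operator of degree 0 preserve the grading -/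
lemma aeval_homog {u : Module.End F X.H} (hu : u ∈ X.corr 0) (i : ℤ) (q : F[X]) {x : X.H}
    (hx : X.π i x = x) : X.π i (aeval u q x) = aeval u q x := by
  induction q using Polynomial.induction_on' with
  | add p q hp hq => rw [map_add, LinearMap.add_apply, map_add, hp, hq]
  | monomial n a =>
    rw [aeval_monomial, Module.End.mul_apply, Module.algebraMap_end_apply, map_smul,
      X.corr_homog (X.corr_pow_zero hu n) (by ring) hx]

/-- The inverse of an algebraic automorphism of `H^i`. -/
lemma exists_inv_corr {u : Module.End F X.H} (hu : u ∈ X.corr 0) (i : ℤ)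
    (hc : u * X.π i = u) (hinj : ∀ x, X.π i x = x → u x = 0 → x = 0) :
    ∃ w ∈ X.corr 0, ∀ x, X.π i x = x → w (u x) = x := by
  have hc' : ∀ n : ℕ, 1 ≤ n → u ^ n * X.π i = u ^ n := by
    intro n hn
    obtain ⟨k, rfl⟩ : ∃ k, n = k + 1 := ⟨n - 1, by omega⟩
    rw [pow_succ, mul_assoc, hc]
  obtain ⟨e, he⟩ := exists_left_inv u
    (fun n hn => X.trace_rat_of_conc (X.corr_pow_zero hu n) i (hc' n hn))
    (fun x => X.π i x = x) (fun q x hx => X.aeval_homog hu i q hx) hinj
  exact ⟨_, X.corr_aeval hu e, he⟩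

/-- Under `B(X)` there are algebraic isomorphisms `H^a → H^(2n-a)`. -/
lemma exists_iso_of_lefschetz (h : X.Lefschetz) (a : ℤ) :
    ∃ t ∈ X.corr ((X.dim : ℤ) - a), ∃ t' : Module.End F X.H, ∀ x, X.π a x = x → t' (t x) = x := by
  by_cases hout : a < 0 ∨ 2 * (X.dim : ℤ) < a
  · refine ⟨0, (X.corr _).zero_mem, 0, fun x hx => ?_⟩
    rw [X.homog_zero hout hx]; simp
  push Not at hout
  by_cases hle : a ≤ X.dim
  · obtain ⟨i, rfl⟩ := Int.eq_ofNat_of_zero_le hout.1
    have hi : i ≤ X.dim := by exact_mod_cast hle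
    obtain ⟨θ, hθ, hθL⟩ := h i hi
    refine ⟨X.L ^ (X.dim - i), ?_, θ, hθL⟩
    have := X.Lpow_corr (X.dim - i)
    rwa [show (((X.dim - i : ℕ) : ℤ)) = (X.dim : ℤ) - i by push_cast [Nat.cast_sub hi]; ring]
      at this
  · obtain ⟨i, hi⟩ := Int.eq_ofNat_of_zero_le (a := 2 * (X.dim : ℤ) - a) (by omega)
    have hi' : i ≤ X.dim := by omega
    obtain ⟨θ, hθ, hθL⟩ := h i hi'
    refine ⟨θ, by rwa [show (X.dim : ℤ) - a = (i : ℤ) - X.dim by omega], X.L ^ (X.dim - i),
      fun y hy => ?_⟩
    rw [show a = 2 * (X.dim : ℤ) - i by omega] at hy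
    obtain ⟨x, hx, rfl⟩ := X.hard_surj i hi' y hy
    rw [hθL x hx]

end Variety

section square

variable {X Z : Variety.{u, v} F} {τ : (X.H ⊗[F] X.H) ≃ₗ[F] Z.H}

lemma π_tmul (hsq : IsSquare X Z τ) {a b k : ℤ} {x y : X.H} (hx : X.π a x = x)
    (hy : X.π b y = y) : Z.π k (τ (x ⊗ₜ y)) = if k = a + b then τ (x ⊗ₜ y) else 0 := by
  have h := hsq.grade a b x y hx hy
  split_ifs with hk
  · rw [hk]; exact h
  · exact Z.π_apply_ne hk h

/-- Under `B(X)`: an algebraic isomorphism `H^k(Z) → H^(2N-k)(Z)`, zero on the other degrees. -/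
lemma exists_iso_square (hsq : IsSquare X Z τ) (h : X.Lefschetz) (k : ℤ) :
    ∃ t ∈ Z.corr ((Z.dim : ℤ) - k), ∃ t' : Module.End F Z.H, t * Z.π k = t ∧
      ∀ z, Z.π k z = z → t' (t z) = z := by
  have hK := kunneth_of_lefschetz X h
  choose t ht t' ht' using X.exists_iso_of_lefschetz h
  set I := Finset.Icc (0 : ℤ) (2 * X.dim) with hI
  set f : Module.End F (X.H ⊗[F] X.H) :=
    ∑ a ∈ I, TensorProduct.map (t a * X.π a) (t (k - a) * X.π (k - a)) with hf
  set f' : Module.End F (X.H ⊗[F] X.H) :=
    ∑ a ∈ I, TensorProduct.map (t' a * X.π (2 * X.dim - a))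
      (t' (k - a) * X.π (2 * X.dim - (k - a))) with hf'
  have hmem : ∀ (a : ℤ) (x : X.H), X.π a x = x → a ∉ I → x = 0 := by
    intro a x hx ha
    refine X.homog_zero ?_ hx
    rw [hI, Finset.mem_Icc, not_and_or] at ha
    omega
  have hfapp : ∀ (a b : ℤ) (x y : X.H), X.π a x = x → X.π b y = y →
      f (x ⊗ₜ y) = if a + b = k then t a x ⊗ₜ t b y else 0 := by
    intro a b x y hx hy
    rw [hf, LinearMap.sum_apply]
    by_cases ha : a ∈ I
    · rw [Finset.sum_eq_single a]
      · rw [TensorProduct.map_tmul, Module.End.mul_apply, Module.End.mul_apply, hx]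
        split_ifs with hk
        · rw [show k - a = b by omega, hy]
        · rw [X.π_apply_ne (by omega) hy, map_zero, TensorProduct.tmul_zero]
      · intro c _ hc
        rw [TensorProduct.map_tmul, Module.End.mul_apply, X.π_apply_ne hc hx, map_zero,
          TensorProduct.zero_tmul]
      · intro hn; exact absurd ha hn
    · have h0 := hmem a x hx ha
      subst h0
      simp
  have hf'app : ∀ (a b : ℤ) (x y : X.H), X.π (2 * X.dim - a) x = x →
      X.π (2 * X.dim - b) y = y → a + b = k → f' (x ⊗ₜ y) = t' a x ⊗ₜ t' b y := by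
    intro a b x y hx hy hk
    rw [hf', LinearMap.sum_apply]
    by_cases ha : a ∈ I
    · rw [Finset.sum_eq_single a]
      · rw [TensorProduct.map_tmul, Module.End.mul_apply, Module.End.mul_apply, hx,
          show k - a = b by omega, hy]
      · intro c _ hc
        rw [TensorProduct.map_tmul, Module.End.mul_apply,
          X.π_apply_ne (i := 2 * X.dim - c) (by omega) hx, map_zero, TensorProduct.zero_tmul]
      · intro hn; exact absurd ha hn
    · have h0 : x = 0 := by
        refine X.homog_zero ?_ hx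
        rw [hI, Finset.mem_Icc, not_and_or] at ha
        omega
      subst h0
      simp
  have hcorr : τ.conj f ∈ Z.corr ((Z.dim : ℤ) - k) := by
    rw [hf, map_sum]
    refine Z.corr_sum _ _ fun a _ => ?_
    have e : (Z.dim : ℤ) - k = (X.dim - a) + (X.dim - (k - a)) := by
      rw [hsq.dim]; push_cast; ring
    rw [e]
    refine hsq.prod _ _ _ _ ?_ ?_
    · exact X.corr_mul' (by ring) (ht a) (hK a)
    · exact X.corr_mul' (by ring) (ht (k - a)) (hK (k - a))
  refine ⟨τ.conj f, hcorr, τ.conj f', ?_, ?_⟩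
  · have h1 : (τ.conj f * Z.π k) ∘ₗ τ.toLinearMap = τ.conj f ∘ₗ τ.toLinearMap := by
      apply NL.ext_homog_tmul X
      intro a b x y hx hy
      simp only [LinearMap.comp_apply, LinearEquiv.coe_coe, Module.End.mul_apply]
      rw [π_tmul hsq hx hy]
      split_ifs with hk
      · rfl
      · rw [map_zero, LinearEquiv.conj_apply_apply, LinearEquiv.symm_apply_apply,
          hfapp a b x y hx hy, if_neg (fun h => hk h.symm), map_zero]
    ext z
    have := congrArg (fun g => g (τ.symm z)) h1
    simpa using this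
  · intro z hz
    have h1 : (τ.conj f' * τ.conj f) ∘ₗ τ.toLinearMap = Z.π k ∘ₗ τ.toLinearMap := by
      apply NL.ext_homog_tmul X
      intro a b x y hx hy
      simp only [LinearMap.comp_apply, LinearEquiv.coe_coe, Module.End.mul_apply]
      rw [π_tmul hsq hx hy, LinearEquiv.conj_apply_apply, LinearEquiv.conj_apply_apply,
        LinearEquiv.symm_apply_apply, LinearEquiv.symm_apply_apply, hfapp a b x y hx hy]
      by_cases hk : a + b = k
      · rw [if_pos hk, if_pos hk.symm, hf'app a b _ _ (X.corr_homog (ht a) (by ring) hx)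
          (X.corr_homog (ht b) (by ring) hy) hk, ht' a x hx, ht' b y hy]
      · rw [if_neg hk, if_neg (Ne.symm hk), map_zero, map_zero]
    have := congrArg (fun g => g (τ.symm z)) h1
    simp only [LinearMap.comp_apply, LinearEquiv.coe_coe, Module.End.mul_apply,
      LinearEquiv.apply_symm_apply] at this
    rw [this, hz]

/-- `B(X)` implies `B(X × X)` (Kleiman). -/
theorem lefschetz_square (hsq : IsSquare X Z τ) (h : X.Lefschetz) : Z.Lefschetz := by
  intro i hi
  obtain ⟨t, ht, t', h1, h2⟩ := exists_iso_square hsq h (2 * (Z.dim : ℤ) - i)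
  have hcast : (((Z.dim - i : ℕ) : ℤ)) = (Z.dim : ℤ) - i := by push_cast [Nat.cast_sub hi]; ring
  have hLp := Z.Lpow_corr (Z.dim - i)
  rw [hcast] at hLp
  have hu : t * Z.L ^ (Z.dim - i) ∈ Z.corr 0 := Z.corr_mul' (by ring) ht hLp
  have hc : t * Z.L ^ (Z.dim - i) * Z.π i = t * Z.L ^ (Z.dim - i) := by
    have h3 := Z.corr_deg _ _ hLp i
    rw [mul_assoc, h3, show (i : ℤ) + 2 * ((Z.dim : ℤ) - i) = 2 * (Z.dim : ℤ) - i by ring,
      ← mul_assoc, h1]
  obtain ⟨w, hw, hwu⟩ := Z.exists_inv_corr hu i hc (by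
    intro x hx h0
    rw [Module.End.mul_apply] at h0
    have hLx := Z.corr_homog hLp (j := 2 * (Z.dim : ℤ) - i) (by ring) hx
    have h4 := h2 _ hLx
    rw [h0, map_zero] at h4
    exact Z.hard_inj i hi x hx h4.symm)
  refine ⟨w * t, Z.corr_mul' (by ring) hw ht, fun x hx => ?_⟩
  exact hwu x hx

end square

/-- `B(Z)` gives algebraic inverses of `L^s` on the even cohomology in the outer degrees. -/
theorem evenInverse_of_lefschetz (Z : Variety.{u, v} F) (h : Z.Lefschetz) (s : ℕ) :
    EvenInverse Z s := by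
  have hK := kunneth_of_lefschetz Z h
  choose! θ hθ hθL using h
  -- the operator on `H^k`
  set g : ℤ → Module.End F Z.H := fun k =>
    if k ≤ Z.dim + s then θ (k - 2 * s).toNat * Z.L ^ ((Z.dim : ℤ) + s - k).toNat
    else Z.L ^ (k - Z.dim - s).toNat * θ (2 * (Z.dim : ℤ) - k).toNat with hg
  set γ : Module.End F Z.H :=
    ∑ k ∈ (Finset.Icc (2 * s : ℤ) (2 * Z.dim)).filter Even, g k * Z.π k with hγ
  have hγapp : ∀ (k : ℤ) (z : Z.H), Z.π k z = z → γ z =
      if Even k ∧ 2 * (s : ℤ) ≤ k then g k z else 0 := by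
    intro k z hz
    rw [hγ, LinearMap.sum_apply]
    by_cases hk : k ∈ (Finset.Icc (2 * s : ℤ) (2 * Z.dim)).filter Even
    · rw [Finset.sum_eq_single k]
      · rw [Module.End.mul_apply, hz]
        rw [Finset.mem_filter, Finset.mem_Icc] at hk
        rw [if_pos ⟨hk.2, hk.1.1⟩]
      · intro c _ hc
        rw [Module.End.mul_apply, Z.π_apply_ne hc hz, map_zero]
      · intro hn; exact absurd hk hn
    · rw [Finset.sum_eq_zero]
      · split_ifs with h0
        · have : z = 0 := by
            refine Z.homog_zero (Or.inr ?_) hz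
            by_contra hcon
            exact hk (Finset.mem_filter.mpr ⟨Finset.mem_Icc.mpr ⟨h0.2, by omega⟩, h0.1⟩)
          rw [this, map_zero]
        · rfl
      · intro c hc
        rw [Module.End.mul_apply, Z.π_apply_ne (by rintro rfl; exact hk hc) hz, map_zero]
  refine ⟨γ, ?_, ?_, ?_⟩
  · rw [hγ]
    refine Z.corr_sum _ _ fun k hk => ?_
    rw [Finset.mem_filter, Finset.mem_Icc] at hk
    refine Z.corr_mul' (r := -(s : ℤ)) (s := 0) (by ring) ?_ (hK k)
    rw [hg]
    dsimp only
    split_ifs with hle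
    · refine Z.corr_mul' ?_ (hθ _ (by omega)) (Z.Lpow_corr _)
      push_cast [Int.toNat_of_nonneg (show 0 ≤ k - 2 * (s : ℤ) by omega),
        Int.toNat_of_nonneg (show 0 ≤ (Z.dim : ℤ) + s - k by omega)]
      ring
    · refine Z.corr_mul' ?_ (Z.Lpow_corr _) (hθ _ (by omega))
      push_cast [Int.toNat_of_nonneg (show 0 ≤ k - Z.dim - (s : ℤ) by omega),
        Int.toNat_of_nonneg (show 0 ≤ 2 * (Z.dim : ℤ) - k by omega)]
      ring
  · intro j hj z hz
    by_cases hj0 : j < 0
    · rw [Z.homog_zero (Or.inl hj0) hz]; simp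
    obtain ⟨i, rfl⟩ := Int.eq_ofNat_of_zero_le (a := j) (by omega)
    have hLz : Z.π ((i : ℤ) + 2 * s) ((Z.L ^ s) z) = (Z.L ^ s) z :=
      Z.corr_homog (Z.Lpow_corr s) (by ring) hz
    rw [hγapp _ _ hLz]
    by_cases he : Even (i : ℤ)
    · rw [if_pos ⟨by
        have : Even (2 * (s : ℤ)) := even_two_mul _
        exact he.add this, by omega⟩, if_pos he, hg]
      dsimp only
      rw [if_pos (by omega), Module.End.mul_apply, ← Module.End.mul_apply (Z.L ^ _), ← pow_add,
        show ((i : ℤ) + 2 * s - 2 * s).toNat = i by omega,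
        show ((Z.dim : ℤ) + s - (i + 2 * s)).toNat + s = Z.dim - i by omega]
      exact hθL i (by omega) z hz
    · rw [if_neg, if_neg he]
      rintro ⟨h1, _⟩
      apply he
      have : Even (2 * (s : ℤ)) := even_two_mul _
      have h2 := h1.sub this
      rwa [show (i : ℤ) + 2 * s - 2 * s = i by ring] at h2
  · intro j hj z hz
    by_cases hjo : 2 * (Z.dim : ℤ) < j
    · rw [Z.homog_zero (Or.inr hjo) hz]; simp
    rw [hγapp _ _ hz]
    by_cases he : Even j
    · rw [if_pos ⟨he, by omega⟩, if_pos he]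
      obtain ⟨i, hi⟩ := Int.eq_ofNat_of_zero_le (a := 2 * (Z.dim : ℤ) - j) (by omega)
      have hi' : i ≤ Z.dim := by omega
      rw [show j = 2 * (Z.dim : ℤ) - i by omega] at hz
      obtain ⟨x, hx, rfl⟩ := Z.hard_surj i hi' z hz
      have key : g j ((Z.L ^ (Z.dim - i)) x) = (Z.L ^ (j - Z.dim - s).toNat) x := by
        rw [hg]
        dsimp only
        split_ifs with hle
        · have hjs : j = Z.dim + s := by omega
          rw [Module.End.mul_apply, show ((Z.dim : ℤ) + s - j).toNat = 0 by omega,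
            show (j - 2 * s).toNat = i by omega, pow_zero, Module.End.one_apply, hθL i hi' x hx,
            show (j - Z.dim - s).toNat = 0 by omega, pow_zero, Module.End.one_apply]
        · rw [Module.End.mul_apply, show (2 * (Z.dim : ℤ) - j).toNat = i by omega, hθL i hi' x hx]
      rw [key, ← Module.End.mul_apply, ← pow_add,
        show s + (j - Z.dim - s).toNat = Z.dim - i by omega]
    · rw [if_neg (fun h => he h.1), if_neg he, map_zero]

/-- The sign conjecture for a generic complete intersection `S` of odd dimension in `Z` is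
equivalent to `EvenInverse Z s`: here the implication to the sign conjecture, which uses the
restriction of correspondences and the isomorphism part of the weak Lefschetz theorem. -/
theorem cplus_of_evenInverse {Z S : Variety.{u, v} F} {s : ℕ} (G : GenericSection Z S s)
    (hodd : Odd S.dim) (hr : ∀ γ ∈ Z.corr (-s), G.up ∘ₗ γ ∘ₗ G.dn ∈ S.corr 0)
    (hup : ∀ i : ℤ, i < S.dim → ∀ x, S.π i x = x → ∃ z, G.up z = x)
    (hdn : ∀ i : ℤ, (S.dim : ℤ) < i → ∀ x, S.π i x = x → G.dn x = 0 → x = 0)
    (h : EvenInverse Z s) : S.CPlus := by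
  obtain ⟨γ, hγ, hlow, hhigh⟩ := h
  have hdim : (S.dim : ℤ) + s = Z.dim := by exact_mod_cast G.dim
  have hm : ((G.m : F) ^ s) ≠ 0 := pow_ne_zero _ (by exact_mod_cast G.m_pos.ne')
  set c : F := ((G.m : F) ^ s)⁻¹ with hc
  have hγ' : c • γ ∈ Z.corr (-s) := by
    have := Z.corr_smul (((G.m : ℚ) ^ s)⁻¹) _ γ hγ
    rw [hc]
    push_cast at this
    exact this
  have hupdn : ∀ z, G.dn (G.up z) = ((G.m : F) ^ s) • (Z.L ^ s) z := by
    intro z
    have := congrArg (fun f => f z) G.dn_up
    simpa using this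
  have hcc : c * ((G.m : F) ^ s) = 1 := inv_mul_cancel₀ hm
  have main : ∑ i ∈ (Finset.Icc (0 : ℤ) (2 * S.dim)).filter Even, S.π i =
      G.up ∘ₗ (c • γ) ∘ₗ G.dn := by
    apply S.ext_homog
    intro j x hx
    rw [S.evenPart_apply hx]
    show _ = G.up (c • γ (G.dn x))
    have hdx : Z.π (j + 2 * s) (G.dn x) = G.dn x := by
      have := congrArg (fun f => f x) (G.dn_deg j)
      simp only [LinearMap.comp_apply] at this
      rw [← this, hx]
    rcases lt_trichotomy j (S.dim : ℤ) with hlt | heq | hgt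
    · obtain ⟨z, hz⟩ := hup j hlt x hx
      have hz' : G.up (Z.π j z) = x := by
        have := congrArg (fun f => f z) (G.up_deg j)
        simp only [LinearMap.comp_apply] at this
        rw [this, hz, hx]
      set z' := Z.π j z with hz'd
      have hzh : Z.π j z' = z' := Z.π_apply_idem j z
      rw [← hz', hupdn, map_smul γ, smul_smul, hcc, one_smul, hlow j (by omega) z' hzh]
      split_ifs <;> simp
    · have hne : ¬ Even j := by
        rw [heq]
        rw [Int.not_even_iff_odd]
        exact_mod_cast hodd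
      rw [if_neg hne]
      have hy : Z.π j (γ (G.dn x)) = γ (G.dn x) := Z.corr_homog hγ (by ring) hdx
      have h0 : (Z.L ^ s) (γ (G.dn x)) = 0 := by
        have := hhigh (j + 2 * s) (by omega) (G.dn x) hdx
        rw [if_neg] at this
        · exact this
        · intro he
          apply hne
          have h2 := he.sub (even_two_mul (s : ℤ))
          rwa [show j + 2 * (s : ℤ) - 2 * s = j by ring] at h2
      have h1 : γ (G.dn x) = 0 := by
        have hi : S.dim ≤ Z.dim := by omega
        refine Z.hard_inj S.dim hi _ (by rwa [← heq]) ?_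
        rwa [show Z.dim - S.dim = s by omega]
      rw [h1, smul_zero, map_zero]
    · have hy : S.π j (G.up (c • γ (G.dn x))) = G.up (c • γ (G.dn x)) := by
        have h1 := congrArg (fun f => f (c • γ (G.dn x))) (G.up_deg j)
        simp only [LinearMap.comp_apply] at h1
        rw [← h1, map_smul, Z.corr_homog hγ (by ring) hdx]
      have hdn' : G.dn (G.up (c • γ (G.dn x))) = if Even j then G.dn x else 0 := by
        rw [hupdn, map_smul, smul_smul, mul_comm, hcc, one_smul,
          hhigh (j + 2 * s) (by omega) _ hdx]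
        have hiff : Even (j + 2 * (s : ℤ)) ↔ Even j := by
          rw [Int.even_add]
          simp
        simp only [hiff]
      by_cases he : Even j
      · rw [if_pos he] at hdn' ⊢
        have := hdn j hgt (x - G.up (c • γ (G.dn x))) (by rw [map_sub, hx, hy])
          (by rw [map_sub, hdn', sub_self])
        exact sub_eq_zero.mp this
      · rw [if_neg he] at hdn' ⊢
        exact (hdn j hgt _ hy hdn').symm
  show _ ∈ S.corr 0
  rw [main]
  exact hr _ hγ'

end Pool.Agent.Helper29.CPB
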